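import Pool.Agent.helper93.SlipToricLemmas

/-!
# The flag condition for the varieties `Slip` of smooth complete toric varieties

Let `X` be a smooth complete toric variety over `ℂ` (for instance a smooth projective one), given by
its fan, `S` its Cox ring, graded by `Pic X`. For every `r` and every ideal `I ∈ Slip_{r,X}`
there is a chain `I = I_r ⊆ I_{r-1} ⊆ ... ⊆ I_0 = S` with `I_k ∈ Slip_{k,X}` for all `k ≤ r`.

The definitions are in `Pool.Agent.helper93.SlipHilb` (the Haiman-Sturmfels functor and the
Zariski topology on its `ℂ`-points) and in `Pool.Agent.helper93.SlipToric` (fans, Cox ring,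
points of `X`, ideals of points, `Slip`).
-/

open Pool.Agent.SlipFlag MvPolynomial

namespace Pool.Agent.Results.MP_222440_ag.FlagCondition

/-- **The flag condition holds for every smooth complete toric variety `X`.** -/
theorem result (n d : ℕ) (X : SmoothCompleteFan n d) (r : ℕ)
    (I : Ideal (MvPolynomial (Fin d) ℂ)) (hI : I ∈ X.Slip r) :
    ∃ J : ℕ → Ideal (MvPolynomial (Fin d) ℂ), J r = I ∧ J 0 = ⊤ ∧
      (∀ k < r, J (k + 1) ≤ J k) ∧ ∀ k ≤ r, J k ∈ X.Slip k :=
  X.flag_condition r I hI

end Pool.Agent.Results.MP_222440_ag.FlagCondition
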